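import Mathlib
import Pool.Agent.Run7.h18.WA.W7

set_option autoImplicit false

/-!
# Weak approximation for systems of norm equations over the line: almost all constant terms, all polynomials, all abelian fields
(with class number prime to the degree), coefficients and finite sets of primes at once, points of the line of tiny height

For `a` in `[1, N] ^ k` let `V` be the variety `N_{K_i/ℚ}(z_i) = c_i (a_{j(i)} + f_{j(i)}(t))`, `i = 1, ..., r`, with all the
`a_l + f_l(t)` different from `0`; it is smooth and geometrically rational, so that its smooth proper models are rationally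
connected. Proof: primes `b_l + F_l(m)` for almost all `b` and all `F` at once (project MK of this run: the one-shift law for short
shifts; Weyl sums `H373R2.NB.IW_all`, sifted counts `H373R2.T7.sys_count`), applied to the polynomials on a residue class, and the
files `R479.NF` of the starting files (norms close to local norms, Hilbert 90).
-/

open Polynomial Finset NumberField Module TensorProduct

namespace Pool.Agent.Results.MP_12adaf_nt.AllNormEquationsAtOnce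

/-- The class number of the field `K` is prime to its degree, and `-1` is a norm or no negative number is a norm. -/
def Admissible {L : Type} [Field L] [NumberField L] (K : IntermediateField ℚ L) : Prop :=
  (classNumber K).Coprime (finrank ℚ K) ∧
    ((∃ x : K, Algebra.norm ℚ x = -1) ∨ ∀ x : K, 0 ≤ Algebra.norm ℚ x)

/-- The point `(t, z)` with coordinates in the field `F` lies on
`V : N_{K_i/ℚ}(z_i) = c_i (a_{j(i)} + f_{j(i)}(t))`, `i = 1, ..., r`, with all the `a_l + f_l(t) ≠ 0`. The coordinates `z_i` form an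
element of `F ⊗ K_i`. -/
def OnV {L : Type} [Field L] [NumberField L] {k r : ℕ} (K : Fin r → IntermediateField ℚ L) (f : Fin k → ℤ[X]) (a : Fin k → ℕ)
    (j : Fin r → Fin k) (c : Fin r → ℤ) {F : Type} [Field F] [Algebra ℚ F] (t : F) (z : (i : Fin r) → F ⊗[ℚ] (K i)) : Prop :=
  (∀ l, (a l : F) + aeval t (f l) ≠ 0) ∧
    ∀ i, Algebra.norm F (z i) = (c i : F) * ((a (j i) : F) + aeval t (f (j i)))

/-- The coordinates of an element of `F ⊗ K`, with respect to an integral basis of `K`. -/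
noncomputable def coord {L : Type} [Field L] [NumberField L] (K : IntermediateField ℚ L) {F : Type} [Field F] [Algebra ℚ F]
    (z : F ⊗[ℚ] K) (i : Free.ChooseBasisIndex ℤ (𝓞 K)) : F :=
  (Algebra.TensorProduct.basis F (integralBasis K)).repr z i

/-- Given points: for `p` in `S` a point `(t_p, z_p)` of `V` over `ℚ_p` with coordinates of absolute value at most `p ^ n` and
`|a_l + f_l(t_p)| ≥ p ^ (-n)`; a real point `(tr, zr)` of `V` with `0 ≤ tr ≤ x`. -/
def Given {L : Type} [Field L] [NumberField L] {k r : ℕ} (K : Fin r → IntermediateField ℚ L) (f : Fin k → ℤ[X]) (a : Fin k → ℕ)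
    (j : Fin r → Fin k) (c : Fin r → ℤ) (S : Finset Nat.Primes) (n x : ℕ) (t : (p : Nat.Primes) → ℚ_[(p : ℕ)])
    (z : (p : Nat.Primes) → (i : Fin r) → ℚ_[(p : ℕ)] ⊗[ℚ] (K i)) (tr : ℝ) (zr : (i : Fin r) → ℝ ⊗[ℚ] (K i)) : Prop :=
  (∀ p ∈ S, OnV K f a j c (t p) (z p) ∧ ‖t p‖ ≤ ((p : ℕ) : ℝ) ^ n ∧ (∀ i l, ‖coord (K i) (z p i) l‖ ≤ ((p : ℕ) : ℝ) ^ n) ∧
    ∀ l, (((p : ℕ) : ℝ) ^ n)⁻¹ ≤ ‖(a l : ℚ_[(p : ℕ)]) + aeval (t p) (f l)‖) ∧
  OnV K f a j c tr zr ∧ 0 ≤ tr ∧ tr ≤ x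

/-- Approximation: there is a rational point `(q, y)` of `V` with `q` within `p ^ (-n)` of `t_p` for all `p` in `S`, and the
coordinates of `y_i` within `p ^ (-n)` of those of `z_{p,i}` for all `p` in `S` and all `i` for which `K_i` is cyclic over `ℚ`, with
`0 < q ≤ x`, denominator of `q` at most `(log N) ^ C` and `|q - tr| ≤ x / (log N) ^ T`. -/
def Approximated {L : Type} [Field L] [NumberField L] {k r : ℕ} (K : Fin r → IntermediateField ℚ L) (f : Fin k → ℤ[X])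
    (a : Fin k → ℕ) (j : Fin r → Fin k) (c : Fin r → ℤ) (S : Finset Nat.Primes) (n N T x C : ℕ)
    (t : (p : Nat.Primes) → ℚ_[(p : ℕ)]) (z : (p : Nat.Primes) → (i : Fin r) → ℚ_[(p : ℕ)] ⊗[ℚ] (K i)) (tr : ℝ) : Prop :=
  ∃ (q : ℚ) (y : (i : Fin r) → ℚ ⊗[ℚ] (K i)), OnV K f a j c q y ∧
    (∀ p ∈ S, ‖(q : ℚ_[(p : ℕ)]) - t p‖ ≤ (((p : ℕ) : ℝ) ^ n)⁻¹ ∧
      ∀ i, IsGalois ℚ (K i) → IsCyclic (K i ≃ₐ[ℚ] K i) → ∀ l,
        ‖((coord (K i) (y i) l : ℚ) : ℚ_[(p : ℕ)]) - coord (K i) (z p i) l‖ ≤ (((p : ℕ) : ℝ) ^ n)⁻¹) ∧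
    0 < q ∧ (q : ℝ) ≤ x ∧ (q.den : ℝ) ≤ Real.log N ^ C ∧ |(q : ℝ) - tr| ≤ x / Real.log N ^ T

/-- Let `k ≥ 1`, `d ≥ 1`, `T` and `U` be integers. There is a `C` such that for all large `N`, with `L = log N`, all but at most
`N ^ k / L ^ U` of the vectors `(a_1, ..., a_k)` of integers in `[1, N]` have the following property: for ALL systems
`f_1, ..., f_k` of integer polynomials with `1 ≤ deg f_l ≤ d` and coefficients at most `L ^ T` in absolute value, ALL `m`, ALL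
admissible subfields `K_1, ..., K_r` (any `r`) of the `m`-th cyclotomic field, ALL `j : {1, ..., r} → {1, ..., k}`, ALL nonzero
integers `c_i`, ALL finite sets `S` of primes which contain the primes up to `∑ deg f_l` and the primes dividing `m`, a leading
coefficient of an `f_l` or some `c_i`, ALL `n ≥ m` with `∏_{p ∈ S} p ^ n ≤ L ^ T` and ALL integers `x` with
`N ^ (1/3) L ^ C ≤ x ^ (deg f_l) ≤ N / L ^ C` for all `l`, every given family of points of `V` over the `ℚ_p`, `p` in `S`, and over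
`ℝ` is approximated by a rational point of `V`. -/
theorem result (k d T U : ℕ) (hk : 1 ≤ k) (hd : 1 ≤ d) : ∃ C N₀ : ℕ, ∀ N : ℕ, N₀ ≤ N →
    ∃ Ex : Finset (Fin k → ℕ), (Ex.card : ℝ) ≤ (N : ℝ) ^ k / Real.log N ^ U ∧
      ∀ a : Fin k → ℕ, (∀ l, 1 ≤ a l ∧ a l ≤ N) → a ∉ Ex →
      ∀ f : Fin k → ℤ[X], (∀ l, 1 ≤ (f l).natDegree ∧ (f l).natDegree ≤ d ∧
        ∀ i, |(((f l).coeff i : ℤ) : ℝ)| ≤ Real.log N ^ T) →
      ∀ (m : ℕ) [NeZero m] (L : Type) [Field L] [NumberField L] [IsCyclotomicExtension {m} ℚ L] (r : ℕ)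
        (K : Fin r → IntermediateField ℚ L), (∀ i, Admissible (K i)) →
      ∀ (j : Fin r → Fin k) (c : Fin r → ℤ), (∀ i, c i ≠ 0) →
      ∀ (S : Finset Nat.Primes) (n : ℕ), m ≤ n →
        (∀ p : Nat.Primes, ((p : ℕ) ≤ ∑ l, (f l).natDegree ∨ (p : ℕ) ∣ m ∨ (∃ l, ((p : ℕ) : ℤ) ∣ (f l).leadingCoeff) ∨
          ∃ i, ((p : ℕ) : ℤ) ∣ c i) → p ∈ S) →
        ((∏ p ∈ S, (p : ℕ) ^ n : ℕ) : ℝ) ≤ Real.log N ^ T →
      ∀ x : ℕ, (∀ l, (N : ℝ) ^ (1 / 3 : ℝ) * Real.log N ^ C ≤ (x : ℝ) ^ (f l).natDegree ∧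
        (x : ℝ) ^ (f l).natDegree * Real.log N ^ C ≤ N) →
      ∀ (t : (p : Nat.Primes) → ℚ_[(p : ℕ)]) (z : (p : Nat.Primes) → (i : Fin r) → ℚ_[(p : ℕ)] ⊗[ℚ] (K i)) (tr : ℝ)
        (zr : (i : Fin r) → ℝ ⊗[ℚ] (K i)),
        Given K f a j c S n x t z tr zr → Approximated K f a j c S n N T x C t z tr := by
  obtain ⟨C, N₀, h⟩ := Pool.Agent.Run7.h18.WA.nf_all k d T U hk hd
  refine ⟨C, N₀, fun N hN => ?_⟩
  obtain ⟨Ex, hE1, hE2⟩ := h N hN
  refine ⟨Ex, hE1, fun a ha haE f hf m _ L _ _ _ r K hK j c hc S n hmn hS hD x hx t z tr zr hG => ?_⟩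
  have hm1 : 1 ≤ m := NeZero.one_le
  obtain ⟨h1, h2, h3, h4⟩ := hG
  obtain ⟨q, y, g1, g2, g3, g4, g5, g6, g7⟩ := hE2 a (by
      rw [Fintype.mem_piFinset]
      intro i
      exact mem_Icc.2 (ha i)) haE f hf m L r K (fun i => (hK i).1) (fun i => (hK i).2) j c hc S n (by omega) hmn
    (fun p hp => hS p (Or.inr (Or.inl hp)))
    (fun i => ⟨Int.natAbs_ne_zero.2 (hc i), fun p hp => hS p (Or.inr (Or.inr (Or.inr ⟨i, Int.natCast_dvd.2 hp⟩)))⟩)
    (fun p hp => hS p (Or.inl hp)) (fun p hp => hS p (Or.inr (Or.inr (Or.inl hp)))) hD x hx t z tr (by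
      intro p hp
      obtain ⟨e1, e2, e3, e4⟩ := h1 p hp
      refine ⟨e2, fun l => ?_, fun i => ⟨?_, fun l => e3 i l⟩⟩
      · rw [Pool.Agent.Run7.h18.WA.PP_eq]
        exact e4 l
      · rw [Pool.Agent.Run7.h18.WA.PP_eq]
        exact e1.2 i) (by
      intro i
      rcases (hK i).2 with e4 | e4
      · exact Or.inl e4
      · right
        have e5 := Pool.Agent.R479.NF.real_nonneg e4 (zr i)
        rw [h2.2 i] at e5
        rw [Pool.Agent.Run7.h18.WA.PP_eq]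
        exact e5) h3 h4
  refine ⟨q, fun i => (1 : ℚ) ⊗ₜ[ℚ] y i, ⟨fun l => ?_, fun i => ?_⟩, fun p hp => ⟨(g7 p hp).1, fun i hc1 hc2 l => ?_⟩, g3, g4, g5, g6⟩
  · have e := g1 l
    rw [Pool.Agent.Run7.h18.WA.PP_eq] at e
    exact e.ne'
  · rw [Pool.Agent.R479.NF.norm_one_tmul_rat, g2 i, Pool.Agent.Run7.h18.WA.PP_eq]
  · have h5 := (g7 p hp).2 i hc1 hc2.exists_generator l
    have e : ((coord (K i) ((1 : ℚ) ⊗ₜ[ℚ] y i) l : ℚ) : ℚ_[(p : ℕ)]) =
        Pool.Agent.R479.NF.cd (p : ℕ) ((1 : ℚ_[(p : ℕ)]) ⊗ₜ[ℚ] (y i) : Pool.Agent.R479.NF.Ap (K i) (p : ℕ)) l := by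
      unfold coord Pool.Agent.R479.NF.cd
      rw [Basis.equivFun_apply, Algebra.TensorProduct.basis_repr_tmul, Algebra.TensorProduct.basis_repr_tmul]
      simp
    rw [e]
    exact h5

end Pool.Agent.Results.MP_12adaf_nt.AllNormEquationsAtOnce
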