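import Pool.Agent.Run7.h443.WQ.Final

/-!
# Density of the rational points of 100% of the cyclic covers that are del Pezzo varieties

Let `n ≥ 2`, and let `X_F` be the cyclic cover `w ^ m = F(x_0, …, x_n)` of `ℙⁿ`, where `F` is an
integral form of degree `m k`: a hypersurface of degree `m k` in `ℙ(1, …, 1, k)`. If it is smooth
then `-K = O(n + 1 - (m - 1) k)`, so the condition `(m - 1) k = 2` says that `X_F` is a Fano variety
of dimension `n` and index `n - 1`, i.e. a del Pezzo variety: these are the cyclic cubic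
hypersurfaces `w ^ 3 = F_3(x)` and the quartic double covers `w ^ 2 = F_4(x)` (for `n = 2` the
cyclic cubic surfaces and the del Pezzo surfaces of degree 2, for `n = 3` the cyclic cubic
threefolds and the quartic double solids). The `F` with coefficients bounded by `H` such that `X_F`
is smooth and has points over the real numbers and over all the `p`-adic fields are a positive
proportion of all the `F`, and there is a function `N` tending to infinity such that for a
proportion of them tending to `1` as `H → ∞` the set of the rational points of `X_F` is dense in the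
product of `X_F(ℝ)` and the `X_F(ℚ_p)` for all the primes `p ≤ N(H)`.
-/

set_option autoImplicit false

namespace Pool.Agent.Results.MP_12adaf_nt.CyclicDelPezzoDensity

/-- The forms of degree `D` in `n + 1` variables whose coefficients are integers of absolute value
at most `H`. -/
def Forms (n D H : ℕ) : Set (MvPolynomial (Fin (n + 1)) ℤ) :=
  {F | F.IsHomogeneous D ∧ ∀ a, |F.coeff a| ≤ (H : ℤ)}

/-- The hypersurface `F = 0` in `ℙⁿ` is smooth: at every zero over a field of characteristic zero
some partial derivative does not vanish. This is equivalent to the smoothness of the cyclic cover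
`w ^ m = F(x)` for `m ≥ 2`. -/
def Smooth {n : ℕ} (F : MvPolynomial (Fin (n + 1)) ℤ) : Prop :=
  ∀ (K : Type) [Field K] [CharZero K] (x : Fin (n + 1) → K), x ≠ 0 →
    MvPolynomial.aeval x F = 0 → ∃ i, MvPolynomial.aeval x (MvPolynomial.pderiv i F) ≠ 0

/-- The cyclic cover `w ^ m = F(x)` has points over the real numbers and over all the `p`-adic
fields. -/
def LocallySoluble (m : ℕ) {n : ℕ} (F : MvPolynomial (Fin (n + 1)) ℤ) : Prop :=
  (∃ (x : Fin (n + 1) → ℝ) (w : ℝ), x ≠ 0 ∧ w ^ m = MvPolynomial.aeval x F) ∧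
    ∀ (p : ℕ) [Fact p.Prime], ∃ (x : Fin (n + 1) → ℚ_[p]) (w : ℚ_[p]), x ≠ 0 ∧
      w ^ m = MvPolynomial.aeval x F

/-- Density of the rational points of the cyclic cover `X : w ^ m = F(x)` in the product of `X(ℝ)`
and the `X(ℚ_p)` for the primes `p ≤ N`: for all points `(y : u)` over the real numbers and
`(z p : v p)` over the `p`-adic fields (for all `p`), and for every `ε > 0`, there is a rational
point `(x : w)` all of whose coordinates differ from those of `(y : u)` and of the `(z p : v p)`
with `p ≤ N` by less than `ε`. -/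
def DenseUpTo (m N : ℕ) {n : ℕ} (F : MvPolynomial (Fin (n + 1)) ℤ) : Prop :=
  ∀ (z : ∀ (p : ℕ) [Fact p.Prime], Fin (n + 1) → ℚ_[p]) (v : ∀ (p : ℕ) [Fact p.Prime], ℚ_[p])
    (y : Fin (n + 1) → ℝ) (u : ℝ),
    (∀ (p : ℕ) [Fact p.Prime], z p ≠ 0 ∧ v p ^ m = MvPolynomial.aeval (z p) F) → y ≠ 0 →
    u ^ m = MvPolynomial.aeval y F → ∀ ε : ℝ, 0 < ε →
    ∃ (x : Fin (n + 1) → ℚ) (w : ℚ), x ≠ 0 ∧ w ^ m = MvPolynomial.aeval x F ∧
      (∀ i, |y i - (x i : ℝ)| < ε) ∧ |u - (w : ℝ)| < ε ∧
      ∀ (p : ℕ) [Fact p.Prime], p ≤ N → (∀ i, ‖z p i - (x i : ℚ_[p])‖ < ε) ∧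
        ‖v p - (w : ℚ_[p])‖ < ε

open scoped Classical in
theorem ncard_eq (n D H : ℕ) (P : MvPolynomial (Fin (n + 1)) ℤ → Prop) :
    ({F | F ∈ Forms n D H ∧ P F} : Set _).ncard =
      ((Pool.Agent.Y716.Q.formsZ (Fin (n + 1)) D (H : ℝ)).filter P).card := by
  rw [← Pool.Agent.Y716.Q.ncard_eq_filter']
  congr 1
  ext f
  simp only [Set.mem_ofPred_eq, Pool.Agent.Y716.Q.isF_iff, Forms]

theorem ncard_eq' (n D H : ℕ) : (Forms n D H).ncard =
      (Pool.Agent.Y716.Q.formsZ (Fin (n + 1)) D (H : ℝ)).card := by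
  rw [← Set.ncard_coe_finset]
  congr 1
  ext f
  simp only [Finset.mem_coe, Pool.Agent.Y716.Q.mem_formsZ, Pool.Agent.Y716.Q.isF_iff, Forms,
    Set.mem_ofPred_eq]

/-- Let `n ≥ 2` and `(m - 1) k = 2`, i.e. `(m, k) = (3, 1)` or `(m, k) = (2, 2)`. The `F` for which
the cyclic cover `w ^ m = F(x)` of `ℙⁿ` is smooth and everywhere locally soluble are a positive
proportion of all the integral forms `F` of degree `m k`, and there is a function `N` tending to
infinity such that for 100% of those with coefficients bounded by `H` the rational points are dense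
at the real place and all the primes up to `N(H)`. -/
theorem result (n m k : ℕ) (hn : 2 ≤ n) (hmk : (m - 1) * k = 2) :
    (∃ c : ℝ, 0 < c ∧ ∀ᶠ H : ℕ in Filter.atTop, c * ((Forms n (m * k) H).ncard : ℝ) ≤
      (({F | F ∈ Forms n (m * k) H ∧ Smooth F ∧ LocallySoluble m F} : Set _).ncard : ℝ)) ∧
    ∃ N : ℕ → ℕ, Filter.Tendsto N Filter.atTop Filter.atTop ∧
      Filter.Tendsto (fun H : ℕ =>
        (({F | F ∈ Forms n (m * k) H ∧ (Smooth F ∧ LocallySoluble m F) ∧
          DenseUpTo m (N H) F} : Set _).ncard : ℝ) /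
        (({F | F ∈ Forms n (m * k) H ∧ Smooth F ∧ LocallySoluble m F} : Set _).ncard : ℝ))
      Filter.atTop (nhds 1) := by
  classical
  have hι : 3 ≤ Fintype.card (Fin (n + 1)) := by
    rw [Fintype.card_fin]
    omega
  have hk : k = 1 ∨ k = 2 := (Nat.dvd_prime Nat.prime_two).mp ⟨m - 1, by rw [mul_comm, hmk]⟩
  rcases hk with rfl | rfl
  · obtain rfl : m = 3 := by omega
    constructor
    · obtain ⟨c, hc, H₀, hH₀⟩ := Pool.Agent.Run7.h443.WE.pos_count_c (Fin (n + 1)) hι
      refine ⟨c, hc, ?_⟩
      filter_upwards [Filter.eventually_ge_atTop H₀] with H hH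
      rw [ncard_eq', ncard_eq]
      refine (hH₀ H hH).trans ?_
      exact Pool.Agent.Y716.Q.card_filter_le' _ _ _ (fun _ _ h => h)
    · obtain ⟨N, hN, hT⟩ := Pool.Agent.Run7.h443.WE.main_dense_c (Fin (n + 1)) hι
      refine ⟨N, hN, ?_⟩
      refine hT.congr fun H => ?_
      rw [ncard_eq, ncard_eq]
      congr 1
      · norm_cast
        congr!
      · norm_cast
        congr!
  · obtain rfl : m = 2 := by omega
    constructor
    · obtain ⟨c, hc, H₀, hH₀⟩ := Pool.Agent.Run7.h443.WQ.pos_count_c (Fin (n + 1)) hι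
      refine ⟨c, hc, ?_⟩
      filter_upwards [Filter.eventually_ge_atTop H₀] with H hH
      rw [ncard_eq', ncard_eq]
      refine (hH₀ H hH).trans ?_
      exact Pool.Agent.Y716.Q.card_filter_le' _ _ _ (fun _ _ h => h)
    · obtain ⟨N, hN, hT⟩ := Pool.Agent.Run7.h443.WQ.main_dense_c (Fin (n + 1)) hι
      refine ⟨N, hN, ?_⟩
      refine hT.congr fun H => ?_
      rw [ncard_eq, ncard_eq]
      congr 1
      · norm_cast
        congr!
      · norm_cast
        congr!

end Pool.Agent.Results.MP_12adaf_nt.CyclicDelPezzoDensity
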