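import Pool.Agent.Run7.h31.Mul.Final

/-!
# Hypersurfaces of small multidegree: the closure of the rational points is open

Let `K` be a field of characteristic zero, for example a number field, and let `X` be a hypersurface
of multidegree `(d_1, …, d_r)` in `ℙ^{n_1} × … × ℙ^{n_r}`, the set of zeros of a polynomial `F` which
is homogeneous of degree `d_i ≤ 3` in the `n_i + 1` variables of the `i`-th group. If `X` is smooth
and `d_i ≤ n_i` for all `i`, then `X` is a Fano variety, hence rationally connected (examples are
the hypersurfaces of bidegree `(3, 3)` and `(2, 3)` in `ℙ³ × ℙ³`, and those of multidegree
`(2, 2, 2)` in `ℙ² × ℙ² × ℙ²`), and the conjecture of Colliot-Thélène implies that the closure of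
`X(K)` in the product of the `X(K_v)`, `v` in a finite set of places, is open, as `Br(X)/Br(K)` is
finite.

**Theorem.** Let `T = (T_v)` be a point of this closure, and suppose that all the `T_v` are general
in the following sense. Then the closure of `X(K)` is a neighbourhood of `T`.

The point `x = (x_1, …, x_r)` of `X` is called general, if over the algebraic closure

* the derivatives `∂F/∂x_i` at `x` do not vanish: for all `i` the intersection `X_i` of `X` with the
  space `{x_1} × … × ℙ^{n_i} × … × {x_r}` is smooth at `x`; let `V_i` be its tangent space;
* for `d_i = 3` the point `x_i` is general on the cubic hypersurface `X_i`: there are points `z` and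
  `y` of `X_i` and a vector `w`, such that `z` and `w` are in the tangent space at `x_i`, and `y` and
  `w` are in the tangent space at `z`, and such that `x_i` is not in the tangent space at `z`, `z` not
  in the one at `y`, `y` not in the one at `x_i`, `x_i` not in the one at `y`, and the polar form
  of `(z, w, y)` is different from zero. (This is satisfied at general points of general cubic
  hypersurfaces of dimension `≥ 2`; it is never satisfied for plane cubics.)
* the graph with the vertices `1, …, r`, in which `i` and `k` are joined, if the second derivative
  `∂²F/∂x_i∂x_k` at `x` does not vanish identically on `V_i × V_k`, is connected.

(For `r = 1` these are cubic hypersurfaces, and quadrics, and the result is known. A hypersurface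
`f_1(x)g_1(y) + f_2(x)g_2(y) = 0` violates the last condition everywhere.)

In the formal statement we work with the coordinates, that is with the affine cones; the `L v` may
be arbitrary complete valued fields such that `K` is dense in their product, as is the case for the
completions of a number field at finitely many different places.

Idea of the proof. The set of the `K`-points is stable under certain explicit changes of one group
of variables: reflections for `d_i = 2`, and for `d_i = 3` the replacement of a point by the third
point on the line through it and an auxiliary point, which is constructed by two tangents. As these
changes depend on vectors which can be chosen arbitrarily over the `K_v`, and as `K` is dense in the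
product of the `K_v`, the closure is stable under the changes over the `K_v`. By a theorem on
implicit functions points near `T_v` which differ only in one group of variables can be transformed
into each other by such a change, uniformly. If `i` and `k` are joined in the graph, then four
changes suffice for points which differ in the groups `i` and `k` (first `x_i` is changed so that
the tangent space of the fibre in the direction `k` moves), and from there one gets all points. In
this way all points near `T_v` can be transformed into each other by a sequence of changes, which
belong to the same groups of variables for all `v`.
-/

set_option autoImplicit false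

namespace Pool.Agent.Results.MP_12adaf_nt.MultidegreeThree

open Run7.h31.Mul Topology

/-- the `i`-th group of variables has `n i + 1` elements -/
abbrev Coord {r : ℕ} (n : Fin r → ℕ) (i : Fin r) : Type := Fin (n i + 1)

/-- Let `F` be a polynomial over the field `K` of characteristic zero in `r` groups of `n i + 1`
variables, homogeneous of degree `d i ∈ {1, 2, 3}` in the `i`-th group. Let `T` be a point of the
closure of the set of the `K`-zeros of `F` (with nonzero components) in the product of the spaces
over the `L v`. Suppose that `T v` is, over the algebraic closure of `L v`, a general point. Then
the closure is a neighbourhood of `T` in the product of the sets of zeros of `F` over the `L v`. -/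
theorem result {K : Type} [Field K] [CharZero K] {r : ℕ} (n d : Fin r → ℕ)
    (hd : ∀ i, d i = 1 ∨ d i = 2 ∨ d i = 3) (F : MvPolynomial (Vars (Coord n)) K)
    (hF : MultiHomogeneous d F) {ι : Type} [Finite ι] (L : ι → Type)
    [∀ v, NontriviallyNormedField (L v)] [∀ v, CompleteSpace (L v)] (σ : ∀ v, K →+* L v)
    (hσ : DenseRange fun (a : K) (v : ι) => σ v a) (T : ∀ v, Pt (Coord n) (L v))
    (hT : T ∈ closure (pts F σ))
    (hG : ∀ v, GeneralPoint ((algebraMap (L v) (AlgebraicClosure (L v))).comp (σ v)) F d
      (fun i j => algebraMap (L v) (AlgebraicClosure (L v)) (T v i j))) :
    closure (pts F σ) ∈ 𝓝[{S | ∀ v, val (σ v) F (S v) = 0}] T :=
  final hσ hF hd T hT hG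

end Pool.Agent.Results.MP_12adaf_nt.MultidegreeThree
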