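import Pool.Agent.Run7.h443.WD.MainWA

/-!
# Weak approximation for 100% of the weighted Fano hypersurfaces that are monic in one variable

Let `n ≥ 2`, `m ≥ 2`, `k ≥ 1` and `m k ≤ n + k`. For forms `c_0, …, c_{m-1}` in `x_0, …, x_n` with
integral coefficients, `deg c_j = k (m - j)`, let `X_c` be the hypersurface
`w ^ m + c_{m-1}(x) w ^ (m-1) + … + c_1(x) w + c_0(x) = 0` of degree `m k` in the weighted
projective space `ℙ(1, …, 1, k)`. If it is smooth it is a Fano variety of dimension `n` (this is the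
condition `m k ≤ n + k`), hence rationally connected. The tuples are ordered by the weighted height:
the coefficients of `c_j` are bounded by `B ^ (m - j)`. A positive proportion of the `X_c` are
smooth and everywhere locally soluble. We prove that 100% of these satisfy weak approximation at the
real place and at all primes up to `N(B)`, with precision `1 / N(B)`, where `N(B)` tends to
infinity with `B`; in particular the rational points of `X_c` then come as close to any given
adelic point as the precision `1 / N(B)` measures. For a fixed precision the exceptions have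
density zero in every family in which only `c_0` varies, uniformly in `c_1, …, c_{m-1}`. Examples:
cubic surfaces (`n = 2`, `m = 3`, `k = 1`), quartic threefolds (`n = 3`, `m = 4`, `k = 1`), del
Pezzo surfaces of degree 2 (`n = 2`, `m = 2`, `k = 2`), triple covers of `ℙ⁴` of degree 6 (`n = 4`,
`m = 3`, `k = 2`).
-/

set_option autoImplicit false

namespace Pool.Agent.Results.MP_12adaf_nt.WeightedFanoWeakApproximation

open Filter Topology

/-- The tuples `(c_0, …, c_{m-1})` of forms in `n + 1` variables with integral coefficients, where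
`c_j` has degree `k (m - j)` and coefficients of absolute value at most `B ^ (m - j)`. -/
def Family (n m k B : ℕ) : Set (Fin m → MvPolynomial (Fin (n + 1)) ℤ) :=
  {c | ∀ j : Fin m, (c j).IsHomogeneous (k * (m - (j : ℕ))) ∧
    ∀ a, |(c j).coeff a| ≤ (B : ℤ) ^ (m - (j : ℕ))}

/-- The polynomial `w ^ m + ∑ c_j(x) w ^ j` in the variables `w = X none` and `x_i = X (some i)`. -/
noncomputable def poly {n m : ℕ} (c : Fin m → MvPolynomial (Fin (n + 1)) ℤ) :
    MvPolynomial (Option (Fin (n + 1))) ℤ :=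
  MvPolynomial.X none ^ m +
    ∑ j : Fin m, MvPolynomial.rename some (c j) * MvPolynomial.X none ^ (j : ℕ)

/-- The point with coordinates `x_i` and `w`. -/
def point {n : ℕ} {K : Type} (x : Fin (n + 1) → K) (w : K) : Option (Fin (n + 1)) → K :=
  fun v => v.elim w x

/-- The hypersurface `X_c` is smooth: at every point over a field of characteristic zero some
partial derivative of the equation does not vanish. (The equation has no nontrivial solution with
`x = 0`, so `X_c` avoids the singular point of `ℙ(1, …, 1, k)`.) -/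
def Smooth {n m : ℕ} (c : Fin m → MvPolynomial (Fin (n + 1)) ℤ) : Prop :=
  ∀ (K : Type) [Field K] [CharZero K] (x : Fin (n + 1) → K) (w : K), x ≠ 0 →
    MvPolynomial.aeval (point x w) (poly c) = 0 →
    ∃ v, MvPolynomial.aeval (point x w) (MvPolynomial.pderiv v (poly c)) ≠ 0

/-- The hypersurface `X_c` has a point over the field `K`. -/
def HasPoint {n m : ℕ} (c : Fin m → MvPolynomial (Fin (n + 1)) ℤ) (K : Type) [Field K] : Prop :=
  ∃ (x : Fin (n + 1) → K) (w : K), x ≠ 0 ∧ MvPolynomial.aeval (point x w) (poly c) = 0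

/-- The hypersurface `X_c` has points over the real numbers and over all the `p`-adic fields. -/
def LocallySoluble {n m : ℕ} (c : Fin m → MvPolynomial (Fin (n + 1)) ℤ) : Prop :=
  HasPoint c ℝ ∧ ∀ (p : ℕ) [Fact p.Prime], HasPoint c ℚ_[p]

/-- Weak approximation on `X_c` with precision `1 / N` at the real place and at the primes up to
`N`: given points `(z_p : v_p)` over all the `p`-adic fields and a real point `(y : u)`, there is a
rational point `(x : w)` which is close to `(z_p : v_p)` for all `p ≤ N` and close to `(y : u)`, up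
to the scaling `(x : w) ~ (s x : s ^ k w)` of the weighted projective space. In the real condition
the factor `B` is the size of `w` relative to `x` in the weighted height: the real points of `X_c`
are a bounded region in the coordinates `x` and `w / B`. -/
def WeakApproximation {n m : ℕ} (k N B : ℕ) (c : Fin m → MvPolynomial (Fin (n + 1)) ℤ) : Prop :=
  ∀ (z : ∀ (p : ℕ) [Fact p.Prime], Fin (n + 1) → ℚ_[p]) (v : ∀ (p : ℕ) [Fact p.Prime], ℚ_[p])
    (y : Fin (n + 1) → ℝ) (u : ℝ),
    (∀ (p : ℕ) [Fact p.Prime],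
      z p ≠ 0 ∧ MvPolynomial.aeval (point (z p) (v p)) (poly c) = 0) →
    y ≠ 0 → MvPolynomial.aeval (point y u) (poly c) = 0 →
    ∃ (x : Fin (n + 1) → ℚ) (w : ℚ), x ≠ 0 ∧ MvPolynomial.aeval (point x w) (poly c) = 0 ∧
      (∀ (p : ℕ) [Fact p.Prime], p ≤ N → ∃ s : ℚ_[p], s ≠ 0 ∧
        (∀ i, ‖z p i - s * (x i : ℚ_[p])‖ ≤ ‖z p‖ / N) ∧
        ‖v p - s ^ k * (w : ℚ_[p])‖ ≤ ‖z p‖ ^ k / N) ∧
      ∃ s : ℝ, 0 < s ∧ (∀ i, |y i - s * (x i : ℝ)| ≤ ‖y‖ / N) ∧
        |u - s ^ k * (w : ℝ)| ≤ B * ‖y‖ ^ k / N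

theorem aeval_poly {n m : ℕ} (c : Fin m → MvPolynomial (Fin (n + 1)) ℤ) {K : Type} [Field K]
    (x : Fin (n + 1) → K) (w : K) : MvPolynomial.aeval (point x w) (poly c) =
      w ^ m + ∑ j : Fin m, MvPolynomial.aeval x (c j) * w ^ (j : ℕ) := by
  unfold poly
  rw [map_add, map_pow, MvPolynomial.aeval_X, map_sum]
  congr 1
  refine Finset.sum_congr rfl fun j _ => ?_
  rw [map_mul, map_pow, MvPolynomial.aeval_X, MvPolynomial.aeval_rename]
  rfl

theorem pderiv_none_rename {n : ℕ} (P : MvPolynomial (Fin (n + 1)) ℤ) :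
    MvPolynomial.pderiv none (MvPolynomial.rename some P :
      MvPolynomial (Option (Fin (n + 1))) ℤ) = 0 := by
  classical
  apply MvPolynomial.pderiv_eq_zero_of_notMem_vars
  intro h
  have := MvPolynomial.vars_rename some P h
  rw [Finset.mem_image] at this
  obtain ⟨a, _, ha⟩ := this
  exact Option.some_ne_none a ha

theorem aeval_pderiv_none {n m : ℕ} (c : Fin m → MvPolynomial (Fin (n + 1)) ℤ) {K : Type}
    [Field K] (x : Fin (n + 1) → K) (w : K) :
    MvPolynomial.aeval (point x w) (MvPolynomial.pderiv none (poly c)) =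
      (m : K) * w ^ (m - 1) +
        ∑ j : Fin m, MvPolynomial.aeval x (c j) * (((j : ℕ) : K) * w ^ ((j : ℕ) - 1)) := by
  unfold poly
  rw [map_add, MvPolynomial.pderiv_pow, MvPolynomial.pderiv_X_self, mul_one, map_sum, map_add,
    map_mul, map_pow, MvPolynomial.aeval_X, map_natCast, map_sum]
  congr 1
  refine Finset.sum_congr rfl fun j _ => ?_
  rw [MvPolynomial.pderiv_mul, pderiv_none_rename, zero_mul, zero_add, MvPolynomial.pderiv_pow,
    MvPolynomial.pderiv_X_self, mul_one, map_mul, map_mul, map_pow, MvPolynomial.aeval_X,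
    MvPolynomial.aeval_rename, map_natCast]
  rfl

theorem aeval_pderiv_some {n m : ℕ} (c : Fin m → MvPolynomial (Fin (n + 1)) ℤ) {K : Type}
    [Field K] (x : Fin (n + 1) → K) (w : K) (i : Fin (n + 1)) :
    MvPolynomial.aeval (point x w) (MvPolynomial.pderiv (some i) (poly c)) =
      ∑ j : Fin m, MvPolynomial.aeval x (MvPolynomial.pderiv i (c j)) * w ^ (j : ℕ) := by
  have hX : ∀ s : ℕ, MvPolynomial.pderiv (some i)
      (MvPolynomial.X none ^ s : MvPolynomial (Option (Fin (n + 1))) ℤ) = 0 := by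
    intro s
    rw [MvPolynomial.pderiv_pow, MvPolynomial.pderiv_X_of_ne (Option.some_ne_none i).symm, mul_zero]
  unfold poly
  rw [map_add, hX, zero_add, map_sum, map_sum]
  refine Finset.sum_congr rfl fun j _ => ?_
  rw [MvPolynomial.pderiv_mul, hX, mul_zero, add_zero,
    MvPolynomial.pderiv_rename (Option.some_injective _), map_mul, map_pow, MvPolynomial.aeval_X,
    MvPolynomial.aeval_rename]
  rfl

theorem smooth_iff {n m : ℕ} (c : Fin m → MvPolynomial (Fin (n + 1)) ℤ) :
    Smooth c ↔ Pool.Agent.Run7.h443.WC.SmoothW c := by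
  unfold Smooth Pool.Agent.Run7.h443.WC.SmoothW
  refine forall_congr' fun K => forall_congr' fun _ => forall_congr' fun _ => forall_congr' fun x =>
    forall_congr' fun w => forall_congr' fun _ => ?_
  rw [aeval_poly]
  refine forall_congr' fun _ => ?_
  constructor
  · rintro ⟨v, hv⟩
    rcases v with _ | i
    · left; rwa [aeval_pderiv_none] at hv
    · right; rw [aeval_pderiv_some] at hv; exact ⟨i, hv⟩
  · rintro (h | ⟨i, h⟩)
    · exact ⟨none, by rwa [aeval_pderiv_none]⟩
    · exact ⟨some i, by rwa [aeval_pderiv_some]⟩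

theorem hasPoint_iff {n m : ℕ} (c : Fin m → MvPolynomial (Fin (n + 1)) ℤ) (K : Type) [Field K] :
    HasPoint c K ↔ Pool.Agent.Run7.h443.WC.PtF c K := by
  unfold HasPoint Pool.Agent.Run7.h443.WC.PtF Pool.Agent.Run7.h443.WC.EqF
  simp only [aeval_poly]

theorem locallySoluble_iff {n m : ℕ} (c : Fin m → MvPolynomial (Fin (n + 1)) ℤ) :
    LocallySoluble c ↔ Pool.Agent.Run7.h443.WC.ElsF c := by
  unfold LocallySoluble Pool.Agent.Run7.h443.WC.ElsF
  simp only [hasPoint_iff]

theorem weakApproximation_iff {n m : ℕ} (k N B : ℕ) (c : Fin m → MvPolynomial (Fin (n + 1)) ℤ) :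
    WeakApproximation k N B c ↔ Pool.Agent.Run7.h443.WD.WAF k N (B : ℝ) c := by
  unfold WeakApproximation Pool.Agent.Run7.h443.WD.WAF Pool.Agent.Run7.h443.WC.EqF
  simp only [aeval_poly]

theorem mem_family {n m k B : ℕ} {c : Fin m → MvPolynomial (Fin (n + 1)) ℤ} :
    c ∈ Pool.Agent.Run7.h443.WC.famZ (Fin (n + 1)) m k (B : ℝ) ↔ c ∈ Family n m k B := by
  rw [Pool.Agent.Run7.h443.WC.mem_famZ]
  unfold Family Pool.Agent.Y716.Q.IsF
  rw [Set.mem_ofPred_eq]
  refine forall_congr' fun j => and_congr_right fun _ => forall_congr' fun a => ?_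
  constructor
  · intro h
    exact_mod_cast h
  · intro h
    exact_mod_cast h

theorem ncard_family {n m k B : ℕ} (P : (Fin m → MvPolynomial (Fin (n + 1)) ℤ) → Prop)
    [DecidablePred P] :
    ({c | c ∈ Family n m k B ∧ P c} : Set _).ncard =
      ((Pool.Agent.Run7.h443.WC.famZ (Fin (n + 1)) m k (B : ℝ)).filter P).card := by
  rw [← Set.ncard_coe_finset]
  congr 1
  ext c
  rw [Finset.coe_filter, Set.mem_ofPred_eq, Set.mem_ofPred_eq, mem_family]

/-- The members of a family in which only `c_0` varies. -/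
theorem fibre {n m k B : ℕ} (hm1 : 1 ≤ m) {t : Fin m → MvPolynomial (Fin (n + 1)) ℤ}
    (ht : t ∈ Family n m k B) (P : (Fin m → MvPolynomial (Fin (n + 1)) ℤ) → Prop)
    [DecidablePred P] :
    ({c | c ∈ Family n m k B ∧ (∀ j : Fin m, (j : ℕ) ≠ 0 → c j = t j) ∧ P c} : Set _).ncard =
        ((Pool.Agent.Y716.Q.formsZ (Fin (n + 1)) (k * m) ((B : ℝ) ^ m)).filter
          (fun F => P (Function.update t ⟨0, hm1⟩ F))).card := by
  classical
  rw [ncard_family]
  apply Finset.card_bij (fun c _ => c ⟨0, hm1⟩)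
  · intro c hc
    rw [Finset.mem_filter] at hc
    have h2 := Pool.Agent.Run7.h443.WC.mem_famZ.mp hc.1 ⟨0, hm1⟩
    have h3 : Function.update t ⟨0, hm1⟩ (c ⟨0, hm1⟩) = c := by
      funext j
      by_cases hj : j = ⟨0, hm1⟩
      · rw [hj, Function.update_self]
      · rw [Function.update_of_ne hj]
        exact (hc.2.1 j (fun h0 => hj (Fin.ext h0))).symm
    rw [Finset.mem_filter, Pool.Agent.Y716.Q.mem_formsZ]
    refine ⟨by simpa using h2, ?_⟩
    rw [h3]
    exact hc.2.2
  · intro c hc c' hc' h2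
    rw [Finset.mem_filter] at hc hc'
    funext j
    by_cases hj : j = ⟨0, hm1⟩
    · rw [hj]; exact h2
    · have h0 : (j : ℕ) ≠ 0 := fun h0 => hj (Fin.ext h0)
      rw [hc.2.1 j h0, hc'.2.1 j h0]
  · intro F hF
    rw [Finset.mem_filter, Pool.Agent.Y716.Q.mem_formsZ] at hF
    refine ⟨Function.update t ⟨0, hm1⟩ F, ?_, Function.update_self _ _ _⟩
    rw [Finset.mem_filter]
    refine ⟨?_, ?_, hF.2⟩
    · rw [Pool.Agent.Run7.h443.WC.mem_famZ]
      intro j
      by_cases hj : j = ⟨0, hm1⟩
      · subst hj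
        rw [Function.update_self]
        simpa using hF.1
      · rw [Function.update_of_ne hj]
        exact Pool.Agent.Run7.h443.WC.mem_famZ.mp (mem_family.mpr ht) j
    · intro j h0
      rw [Function.update_of_ne]
      intro hj
      exact h0 (congrArg Fin.val hj)

/-- For `n ≥ 2`, `m ≥ 2`, `k ≥ 1` and `m k ≤ n + k`: (a) there are `N(B) → ∞` such that 100% of the
smooth everywhere locally soluble weighted hypersurfaces `w ^ m + ∑ c_j(x) w ^ j = 0` in the box
of size `B` satisfy weak approximation with precision `1 / N(B)` at the real place and at the primes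
up to `N(B)`; (b) for every fixed precision `1 / N` and every `ε > 0`, for all large `B` and
whatever the lower coefficients `c_1, …, c_{m-1}`, the number of `c_0` for which this fails is at
most `ε` times the number of `c_0` for which the hypersurface is everywhere locally soluble. -/
theorem result (n m k : ℕ) (hn : 2 ≤ n) (hm : 2 ≤ m) (hk : 1 ≤ k) (h : m * k ≤ n + k) :
    (∃ N : ℕ → ℕ, Tendsto N atTop atTop ∧ (∀ B, 1 ≤ N B) ∧ Tendsto (fun B : ℕ =>
      (({c | c ∈ Family n m k B ∧ Smooth c ∧ LocallySoluble c ∧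
        WeakApproximation k (N B) B c} : Set _).ncard : ℝ) /
      (({c | c ∈ Family n m k B ∧ Smooth c ∧ LocallySoluble c} : Set _).ncard : ℝ))
      atTop (𝓝 1)) ∧
    ∀ N : ℕ, 1 ≤ N → ∀ ε : ℝ, 0 < ε → ∀ᶠ B : ℕ in atTop, ∀ t ∈ Family n m k B,
      (({c | c ∈ Family n m k B ∧ (∀ j : Fin m, (j : ℕ) ≠ 0 → c j = t j) ∧
        ¬ WeakApproximation k N B c} : Set _).ncard : ℝ) ≤
      ε * (({c | c ∈ Family n m k B ∧ (∀ j : Fin m, (j : ℕ) ≠ 0 → c j = t j) ∧
        LocallySoluble c} : Set _).ncard : ℝ) := by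
  classical
  have hcard : m * k + 1 ≤ Fintype.card (Fin (n + 1)) + k := by
    rw [Fintype.card_fin]; omega
  have hn3 : 3 ≤ Fintype.card (Fin (n + 1)) := by rw [Fintype.card_fin]; omega
  have hm1 : 1 ≤ m := by omega
  obtain ⟨N, hN1, hN2, hT⟩ := Pool.Agent.Run7.h443.WD.main_WA (Fin (n + 1)) hn3 hm hk hcard
  refine ⟨⟨N, hN1, hN2, hT.congr fun B => ?_⟩, ?_⟩
  · rw [ncard_family, ncard_family]
    simp only [smooth_iff, locallySoluble_iff, weakApproximation_iff]
  · obtain ⟨δ', hδ'0, B₂, hB₂⟩ :=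
      Pool.Agent.Run7.h443.WC.pos_unif (Fin (n + 1)) hn3 hm hk hcard hm1
    intro N hN ε hε
    obtain ⟨B₁, hB₁⟩ := Pool.Agent.Run7.h443.WD.exc_unifWA (Fin (n + 1)) hn3 hm hk hcard hm1 hN
      (ε * δ') (by positivity)
    filter_upwards [Filter.eventually_ge_atTop ⌈max B₁ B₂⌉₊] with B hB t ht
    have hBr : max B₁ B₂ ≤ (B : ℝ) := (Nat.le_ceil _).trans (by exact_mod_cast hB)
    have h1 := hB₁ B ((le_max_left _ _).trans hBr) t (mem_family.mpr ht)
    have h0 := hB₂ B ((le_max_right _ _).trans hBr) t (mem_family.mpr ht)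
    rw [fibre hm1 ht (fun c => ¬ WeakApproximation k N B c),
      fibre hm1 ht (fun c => LocallySoluble c)]
    have h3 := mul_le_mul_of_nonneg_left h0 hε.le
    have h4 : ε * (δ' *
        ((Pool.Agent.Y716.Q.formsZ (Fin (n + 1)) (k * m) ((B : ℝ) ^ m)).card : ℝ)) ≤
        ε * (((Pool.Agent.Y716.Q.formsZ (Fin (n + 1)) (k * m) ((B : ℝ) ^ m)).filter
          (fun F => LocallySoluble (Function.update t ⟨0, hm1⟩ F))).card : ℝ) := by
      refine h3.trans (mul_le_mul_of_nonneg_left ?_ hε.le)
      refine Pool.Agent.Y716.Q.card_filter_le' _ _ _ ?_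
      intro F _ g1
      exact (locallySoluble_iff _).mpr (Pool.Agent.Run7.h443.WC.elsF_of_pt g1)
    refine le_trans ?_ h4
    refine le_trans (Pool.Agent.Y716.Q.card_filter_le' _ _ _ ?_)
      (h1.trans (le_of_eq (by ring)))
    intro F _ g1 g2
    exact g1 ((weakApproximation_iff k N B _).mpr g2)

end Pool.Agent.Results.MP_12adaf_nt.WeightedFanoWeakApproximation
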